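import Pool.Agent.Q204.MT.Fin

/-!
# The momentum distribution of the dilute Bose gas down to momenta below `√ρ`

`N` bosons on the torus of side `L` in dimension `n ≥ 3` (`n = 3` is the problem, `μ = 1 / (2m)`) with
the Hamiltonian `H = ∑_i (-μ Δ_i) + ∑_{i<j} v(|x_i - x_j|)`, where `v` has values in `[0, ∞]` (hard
cores allowed) and finite range; no other term is added. In the prediction of Lee, Huang and Yang
the depletion of the condensate is of relative order `ρ^(1/2)` and sits at momenta of order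
`ρ^(1/2)`. The theorem: for `ρ` small and all `L ≥ ρ^(-1/2)` (in particular in the thermodynamic limit
at fixed `ρ`) the ground state and all states with nearly the same energy have at most `2 ρ^κ N`
particles whose momentum has a given component of size at least `2 ρ^(1/2 + κ)`.
-/

set_option autoImplicit false

open MeasureTheory
open scoped ENNReal

namespace Pool.Agent.Results.MP_4952d6_mp.MomentumTail

open Pool.Agent.W761.CB Pool.Agent.Q204.MT

/-- **Few particles at momenta above `2 ρ^(1/2 + κ)`.** `μ > 0`, `κ = 1 / (8 (n^3 + 4 n^2))`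
(`1 / 504` for `n = 3`), `v` is a measurable pair potential with values in `[0, ∞]` of finite range
`R₀`, not zero almost everywhere. There is `ρ₀ ∈ (0, 1)` such that for all `ρ ∈ (0, ρ₀]`, all
`L ≥ ρ^(-1/2)`, all `N` with `ρ / 2 ≤ N / L^n ≤ ρ` and all symmetric wave functions `Ψ` of `N`
particles with norm one which minimise the energy up to `ρ^(2 + 4 κ) L^n`, for every coordinate `c`:
the expected numbers `modeN Ψ c k` of particles whose momentum has `c`-th component `2πk/L` add up to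
`N`, and those with `|2πk/L| ≥ 2 ρ^(1/2 + κ)` add up to at most `2 ρ^κ N`. -/
theorem result (n : ℕ) (hn : 3 ≤ n) (μ R₀ κ : ℝ) (hμ : 0 < μ)
    (hκ : κ = 1 / (8 * (n ^ 3 + 4 * n ^ 2))) (v : ℝ → ℝ≥0∞) (hv : Measurable v)
    (hvR : ∀ r, R₀ < r → v r = 0) (hv0 : ∫⁻ z : Fin n → ℝ, v (el z) ≠ 0) :
    ∃ ρ₀ : ℝ, 0 < ρ₀ ∧ ρ₀ < 1 ∧ ∀ ρ : ℝ, 0 < ρ → ρ ≤ ρ₀ →
      ∀ (L : ℝ) [Fact (0 < L)], ρ ^ (-(1 / 2) : ℝ) ≤ L →
      ∀ N : ℕ, ρ / 2 * L ^ n ≤ N → (N : ℝ) ≤ ρ * L ^ n →
      ∀ Ψ : (Fin N → Tor n L) → ℂ, IsWf2 Ψ →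
        (∀ Φ : (Fin N → Tor n L) → ℂ, IsWf Φ → enN (ENNReal.ofReal μ) (fun _ => 0) v Ψ ≤
          enN (ENNReal.ofReal μ) (fun _ => 0) v Φ + ENNReal.ofReal (ρ ^ (2 + 4 * κ) * L ^ n)) →
        ∀ c : Fin n, ∑' k : ℤ, modeN Ψ c k = N ∧
          ∑' k : {k : ℤ // 2 * ρ ^ (1 / 2 + κ) ≤ |2 * Real.pi * k / L|}, modeN Ψ c k ≤
            ENNReal.ofReal (2 * ρ ^ κ * N) :=
  momS n hn μ R₀ κ hμ hκ v hv hvR hv0

end Pool.Agent.Results.MP_4952d6_mp.MomentumTail
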